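import Pool.Agent.Work.MP_db9399_iv_helper38.RXV

/-!
# MP_db9399, all scales, block RGX, part V1 (helper23)
-/

set_option autoImplicit false

namespace Pool.Agent.Work.MP_db9399_rg_helper23

open Finset Classical
open Pool.Agent.Work.MP_db9399_all (nb)
open Pool.Agent.Work.MP_db9399_lt (us)
open Pool.Agent.Work.MP_db9399_da (Pcs Ty pV sV Ts sdn ptn sgp sg need thin)
open Pool.Agent.Work.MP_db9399_xf
open Pool.Agent.Work.MP_db9399_iv_helper38

universe u

section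
variable {V : Type u} [Fintype V] {N J : ℕ}

omit [Fintype V] in
theorem sum_le_one {F : Finset V} (hF : ∀ w ∈ F, ∀ w' ∈ F, w = w') (g : V → ℕ) (thr : ℝ)
    (h0 : 0 ≤ thr) (hg : ∀ w ∈ F, (g w : ℝ) ≤ thr) : ((∑ w ∈ F, g w : ℕ) : ℝ) ≤ thr := by
  rcases F.eq_empty_or_nonempty with h | ⟨w0, hw0⟩
  · rw [h]; simpa using h0
  · have h1 : F = {w0} := by
      ext w
      rw [mem_singleton]
      exact ⟨fun h => hF w h w0 hw0, fun h => h ▸ hw0⟩
    rw [h1, sum_singleton]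
    exact hg w0 hw0

/-- the sums over the vertices with few neighbours in the piece -/
theorem small_sum {πk C g z τ e : ℝ} {M : ℕ} {S : Fin J → Scl} {c' u : ℝ} {G : SimpleGraph V}
    {d : ℕ} {X : XD V N J} {A : PalX} {t : V → V → ℕ} {c m m2 : V → ℕ} {pr f : V → V}
    {θk θ' η : ℝ} (hX : Ctx πk C g z τ e M S c' θk θ' η G d X A t c m m2 pr)
    (hf : ChoP C τ u (x0 c' d) S G d X A t c m m2 pr f) (n : Fin N) (b : ℕ) (thr : ℝ)
    (h0 : 0 ≤ thr) (O O' : V → Prop) (hO : ∀ w, O w → w ∈ X.P.V0)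
    (hO' : ∀ w, Ow G X d w → O' w) :
    ((∑ w ∈ univ.filter (fun w => O w ∧ cn G d X t c f w = b ∧
      ((nb G w ∩ pV X.P n).card : ℝ) < thr), (nb G w ∩ pV X.P n).card : ℕ) : ℝ) ≤
    ((∑ w ∈ univ.filter (fun w => O' w ∧ c w = b ∧
      ((nb G w ∩ pV X.P n).card : ℝ) < thr), (nb G w ∩ pV X.P n).card : ℕ) : ℝ) +
      (2 * thr + u * d) := by
  set cw : V → ℕ := fun w => (nb G w ∩ pV X.P n).card with hcw
  set F := univ.filter (fun w => O w ∧ cn G d X t c f w = b ∧ (cw w : ℝ) < thr) with hF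
  set F0 := univ.filter (fun w => O' w ∧ c w = b ∧ (cw w : ℝ) < thr) with hF0
  set F1 := univ.filter (fun w => Cov G X d w ∧ t w (f w) = b ∧ (cw w : ℝ) < thr ∧
    ∃ v ∈ pV X.P n, X.cq w = X.cq v) with hF1
  set F2 := univ.filter (fun w => Cov G X d w ∧ t w (f w) = b ∧ (cw w : ℝ) < thr ∧
    (∀ v ∈ pV X.P n, X.cq w ≠ X.cq v) ∧ x0 c' d ≤ cw w) with hF2
  have hsub : ∀ w ∈ F, cw w ≤ (if w ∈ F0 then cw w else 0) + (if w ∈ F1 then cw w else 0) +
      (if w ∈ F2 then cw w else 0) +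
      (if Cov G X d w then wt1 (x0 c' d) G X t n b w (f w) else 0) := by
    intro w hw
    obtain ⟨hw0, hw2, hw3⟩ := (mem_filter.1 hw).2
    have hw1 := hO w hw0
    by_cases hc : Cov G X d w
    · have e1 : t w (f w) = b := by
        unfold cn at hw2
        rw [if_pos hc] at hw2
        exact hw2
      by_cases h1 : ∃ v ∈ pV X.P n, X.cq w = X.cq v
      · have h2 : w ∈ F1 := mem_filter.2 ⟨mem_univ _, hc, e1, hw3, h1⟩
        rw [if_pos h2]
        omega
      · push Not at h1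
        by_cases h3 : x0 c' d ≤ cw w
        · have h2 : w ∈ F2 := mem_filter.2 ⟨mem_univ _, hc, e1, hw3, h1, h3⟩
          rw [if_pos h2]
          omega
        · have h4 : wt1 (x0 c' d) G X t n b w (f w) = cw w := by
            unfold wt1
            rw [if_pos ⟨h1, not_le.1 h3, e1⟩]
          rw [if_pos hc, h4]
          omega
    · have e1 : c w = b := by
        unfold cn at hw2
        rw [if_neg hc] at hw2
        exact hw2
      have h2 : w ∈ F0 := mem_filter.2 ⟨mem_univ _, hO' w ⟨hw1, hc⟩, e1, hw3⟩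
      rw [if_pos h2]
      omega
  have h1 : ∑ w ∈ F, cw w ≤ ∑ w ∈ F0, cw w + ∑ w ∈ F1, cw w + ∑ w ∈ F2, cw w +
      ∑ w ∈ univ.filter (Cov G X d), wt1 (x0 c' d) G X t n b w (f w) := by
    refine (sum_le_sum hsub).trans ((sum_le_univ_sum_of_nonneg fun _ => Nat.zero_le _).trans ?_)
    rw [sum_add_distrib, sum_add_distrib, sum_add_distrib, ← sum_filter, ← sum_filter,
      ← sum_filter, ← sum_filter]
    have e0 : ∀ K : Finset V, univ.filter (fun w => w ∈ K) = K := by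
      intro K; ext w; simp
    rw [e0, e0, e0]
  have g1 : ((∑ w ∈ F1, cw w : ℕ) : ℝ) ≤ thr := by
    refine sum_le_one ?_ cw thr h0 ?_
    · intro w hw w' hw'
      by_contra hne
      obtain ⟨a1, a2, a3, v, hv, a4⟩ := (mem_filter.1 hw).2
      obtain ⟨b1, b2, b3, v', hv', b4⟩ := (mem_filter.1 hw').2
      have hpv := mem_pV.1 hv
      have hpv' := mem_pV.1 hv'
      have e1 : X.cq v = X.cq v' := hX.pc.clp v v' hpv.1 hpv'.1 (hpv.2.trans hpv'.2.symm)
      refine hf.col w w' a1 b1 hne ?_ (a2.trans b2.symm)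
      exact Or.inr (Or.inr (Or.inr (Or.inl ⟨v, hpv.1, a4, b4.trans e1.symm⟩)))
    · intro w hw
      exact ((mem_filter.1 hw).2.2.2.1).le
  have g2 : ((∑ w ∈ F2, cw w : ℕ) : ℝ) ≤ thr := by
    refine sum_le_one ?_ cw thr h0 ?_
    · intro w hw w' hw'
      by_contra hne
      obtain ⟨a1, a2, a3, a4, a5⟩ := (mem_filter.1 hw).2
      obtain ⟨b1, b2, b3, b4, b5⟩ := (mem_filter.1 hw').2
      refine hf.col w w' a1 b1 hne ?_ (a2.trans b2.symm)
      exact Or.inr (Or.inr (Or.inr (Or.inr ⟨n, fun v hv => ⟨a4 v hv, b4 v hv⟩, a5, b5⟩)))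
    · intro w hw
      exact ((mem_filter.1 hw).2.2.2.1).le
  have g3 := hf.wt1 n b
  have h2 : ((∑ w ∈ F, cw w : ℕ) : ℝ) ≤ ((∑ w ∈ F0, cw w : ℕ) : ℝ) +
      ((∑ w ∈ F1, cw w : ℕ) : ℝ) + ((∑ w ∈ F2, cw w : ℕ) : ℝ) +
      ((∑ w ∈ univ.filter (Cov G X d), wt1 (x0 c' d) G X t n b w (f w) : ℕ) : ℝ) := by
    exact_mod_cast h1
  linarith

end

theorem CgR_symm {V : Type u} [Fintype V] {N J : ℕ} {τ : ℝ} {x : ℕ} {S : Fin J → Scl}
    {G : SimpleGraph V} {d : ℕ} {X : XD V N J} {w w' : V} (h : CgR τ x S G d X w w') :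
    CgR τ x S G d X w' w := by
  rcases h with h | ⟨n, h1, h2, h3⟩ | ⟨n, h1, h2, h3⟩ | ⟨v, h1, h2, h3⟩ | ⟨n, h1, h2, h3⟩
  · exact Or.inl h.symm
  · exact Or.inr (Or.inl ⟨n, h1, h3, h2⟩)
  · exact Or.inr (Or.inr (Or.inl ⟨n, h1, h3, h2⟩))
  · exact Or.inr (Or.inr (Or.inr (Or.inl ⟨v, h1, h3, h2⟩)))
  · exact Or.inr (Or.inr (Or.inr (Or.inr ⟨n, fun v hv => ⟨(h1 v hv).2, (h1 v hv).1⟩, h3, h2⟩)))

/-- different own colours of conflicting vertices -/
theorem cn_ne {V : Type u} [Fintype V] {N J : ℕ} {C τ : ℝ} {x : ℕ} {S : Fin J → Scl} {u : ℝ}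
    {G : SimpleGraph V} {d : ℕ} {X : XD V N J} {A : PalX} {t : V → V → ℕ} {c m m2 : V → ℕ}
    {pr f : V → V} (hf : ChoP C τ u x S G d X A t c m m2 pr f) {w w' : V} (hw : w ∈ X.P.V0)
    (hw' : w' ∈ X.P.V0) (hne : w ≠ w') (hc : CgR τ x S G d X w w')
    (hno : ¬ Cov G X d w → ¬ Cov G X d w' → c w ≠ c w') :
    cn G d X t c f w ≠ cn G d X t c f w' := by
  unfold cn
  by_cases h1 : Cov G X d w
  · by_cases h2 : Cov G X d w'
    · rw [if_pos h1, if_pos h2]
      exact hf.col w w' h1 h2 hne hc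
    · rw [if_pos h1, if_neg h2]
      obtain ⟨n, β, _, _, _, _, _, _, _, h9, _⟩ := hf.mem w h1
      exact h9 w' hw' h2 hc
  · by_cases h2 : Cov G X d w'
    · rw [if_neg h1, if_pos h2]
      obtain ⟨n, β, _, _, _, _, _, _, _, h9, _⟩ := hf.mem w' h2
      exact (h9 w hw h1 (CgR_symm hc)).symm
    · rw [if_neg h1, if_neg h2]
      exact hno h1 h2

theorem stmt_V1 : Stmt_V1.{u} := by
  intro πk C g z τ e M J S c' u hCst hu1 hu2
  refine ⟨0, ?_⟩
  intro V _ N G d X A t c m m2 pr f θk θ' η _ hX hf hB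
  obtain ⟨_, _, _, _, _, _, _, hτ, hτe, _, hSml⟩ := hCst
  have H := hB.H
  have hpre := hX.pre
  have hd0 : (0 : ℝ) ≤ d := Nat.cast_nonneg _
  -- no new colours at the vertices of the pieces of type K
  have hK : ∀ v, v ∉ X.P.V0 → X.P.ty (X.P.pc v) = Ty.K → ∀ b,
      b ∈ Ft (xt G X) (tn G d X t m m2 pr f) v → b ∈ Ft (xt G X) t v := by
    intro v hv hty b hb
    by_contra hcon
    obtain ⟨w, hw, h | h⟩ := ft_gain H hcon hb
    · exact hv (H.ad _ _ _ h).1
    · obtain ⟨_, n, β, hcv, hvs⟩ := hB.pos w v b h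
      have h1 := (mem_sV.1 hvs).2.1
      have h2 := hcv.2.1
      rw [h1, h2] at hty
      exact absurd hty (by decide)
  have hcovV : ∀ w, Cov G X d w → w ∈ X.P.V0 := by
    rintro w ⟨n, β, h⟩
    exact h.1
  have hmuf : ∀ w, Cov G X d w → muc G d X t m m2 pr f w (f w) = some (mo X m m2 pr w) := by
    intro w hw
    unfold muc
    rw [if_pos ⟨hw, rfl⟩]
  constructor
  · refine ⟨fun v w => rcl_sym H v w, fun v w h => rcl_lt H v w h, fun v => rcl_inj H v, ?_, ?_⟩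
    · intro v hv
      rw [disjoint_left]
      intro b hb
      exact disjoint_left.1 (hpre.rK v hv) (hK v hv.1.1 hv.1.2 b hb)
    · intro n hn b
      refine le_trans ?_ (hpre.lK n hn b)
      rw [Nat.cast_le]
      refine card_le_card ?_
      intro v hv
      obtain ⟨h1, h2, h3⟩ := mem_filter.1 hv
      refine mem_filter.2 ⟨h1, h2, ?_⟩
      obtain ⟨h4, h5⟩ := mem_pV.1 h1
      exact hK v h4 (by rw [h5]; exact hn) b h3
  · refine ⟨?_, ?_, ?_, ?_, ?_, ?_, ?_⟩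
    · -- clt
      intro v hv
      show cn G d X t c f v < d + 2
      unfold cn
      by_cases h : Cov G X d v
      · rw [if_pos h]
        exact H.lt v (f v) (H.ad _ _ _ (hmuf v h)).2.2.1
      · rw [if_neg h]
        exact hpre.clt v ⟨hv, h⟩
    · -- cc
      intro v w hv hw hvw
      exact cn_ne hf hv hw hvw.ne (Or.inl hvw) fun h1 h2 =>
        hpre.cc v w ⟨hv, h1⟩ ⟨hw, h2⟩ hvw
    · -- ct
      intro v hv
      show cn G d X t c f v ∉ _
      unfold cn
      by_cases h : Cov G X d v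
      · rw [if_pos h]
        have h1 := hmuf v h
        have hA := (H.ad _ _ _ h1).2.2.1
        refine ft_miss_a H (by rw [h1]; exact Option.some_ne_none _) ?_
        intro y' hy'
        exact H.fa _ _ _ hy' (mem_Ft.2 ⟨f v, hA, rfl⟩)
      · rw [if_neg h]
        intro hb
        have h1 := hpre.ct v ⟨hv, h⟩
        obtain ⟨w, hw, h2 | h2⟩ := ft_gain H h1 hb
        · obtain ⟨_, n, β, hcv, _⟩ := hB.pos v w _ h2
          exact h ⟨n, β, hcv⟩
        · exact (H.ad _ _ _ h2).2.1 hv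
    · -- big
      intro n hn w w' hw hw' hne h1 h2
      exact cn_ne hf hw hw' hne (Or.inr (Or.inl ⟨n, hn, h1, h2⟩)) fun h3 h4 =>
        hpre.big n hn w w' ⟨hw, h3⟩ ⟨hw', h4⟩ hne h1 h2
    · -- sml
      intro n hn b
      have hζ := (hSml (X.sc n)).ζp
      have h1 := small_sum hX hf n b ((S (X.sc n)).ζ / 1000 * d) (by positivity)
        (fun v => v ∈ X.P.V0) (Ow G X d) (fun _ h => h) (fun _ h => h)
      have h2 := hpre.sml n hn b
      have h3 := mul_le_mul_of_nonneg_right (hu1 (X.sc n)) hd0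
      refine h1.trans ?_
      have h4 : 0 ≤ (S (X.sc n)).ζ * d := by positivity
      linarith
    · -- dif
      intro n hn w w' hw hw' hne h1 h2
      exact cn_ne hf hw hw' hne (Or.inr (Or.inr (Or.inl ⟨n, hn, h1, h2⟩))) fun h3 h4 =>
        hpre.dif n hn w w' ⟨hw, h3⟩ ⟨hw', h4⟩ hne h1 h2
    · -- non
      intro n hn b
      have h1 := small_sum hX hf n b (τ * d) (by positivity)
        (fun v => v ∈ X.P.V0) (Ow G X d) (fun _ h => h) (fun _ h => h)
      have h2 := hpre.non n hn b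
      have h3 := mul_le_mul_of_nonneg_right hu2 hd0
      refine h1.trans ?_
      have h4 := mul_le_mul_of_nonneg_right hτe hd0
      have h5 : 0 ≤ τ * (d : ℝ) := by positivity
      linarith

end Pool.Agent.Work.MP_db9399_rg_helper23
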